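import Pool.Agent.Helper2.MON.Defs

/-!
Project MON (MP_b8862a_ag), block MON-1b: the logarithm in the unipotent case.
-/

set_option linter.unusedSectionVars false

open Matrix

namespace MH

variable {n : Type*} [Fintype n] [DecidableEq n]

open Polynomial in
private lemma poly_zero34 {N : ℕ} (hN : 0 < N) {p : ℂ[X]} (h : ∀ k : ℕ, p.eval ((N * k : ℕ) : ℂ) = 0) : p = 0 := by
  apply Polynomial.eq_zero_of_infinite_isRoot
  refine Set.infinite_of_injective_forall_mem (f := fun k : ℕ => ((N * k : ℕ) : ℂ)) ?_ fun k => h k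
  intro a b hab
  have h1 : ((N * a : ℕ) : ℂ) = ((N * b : ℕ) : ℂ) := hab
  have h2 : N * a = N * b := Nat.cast_injective h1
  exact Nat.eq_of_mul_eq_mul_left hN h2

open Polynomial in
private lemma mat_ext34 {p q : Matrix n n ℂ[X]}
    (h : ∀ k : ℕ, p.map (evalRingHom (k : ℂ)) = q.map (evalRingHom (k : ℂ))) : p = q := by
  ext1 i j
  rw [← sub_eq_zero]
  refine poly_zero34 one_pos fun k => ?_
  have h1 := congrFun (congrFun (h k) i) j
  rw [one_mul, eval_sub, sub_eq_zero]
  exact h1

open Polynomial in
/-- the powers of a unipotent matrix are values of a polynomial -/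
private lemma interp34 {v : Matrix n n ℂ} (hv : IsNilpotent v) :
    ∃ U : Matrix n n ℂ[X], ∀ k : ℕ, U.map (evalRingHom (k : ℂ)) = (1 + v) ^ k := by
  obtain ⟨r, hr⟩ := hv
  let ch : ℕ → ℂ[X] := fun j => C ((j.factorial : ℂ)⁻¹) * descPochhammer ℂ j
  have hch : ∀ j k : ℕ, (ch j).eval (k : ℂ) = (k.choose j : ℂ) := by
    intro j k
    change (C ((j.factorial : ℂ)⁻¹) * descPochhammer ℂ j).eval (k : ℂ) = _
    rw [eval_mul, eval_C, descPochhammer_eval_eq_descFactorial, Nat.descFactorial_eq_factorial_mul_choose]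
    push_cast
    rw [← mul_assoc, inv_mul_cancel₀ (by exact_mod_cast j.factorial_ne_zero), one_mul]
  have h1 : ∀ k : ℕ, (1 + v) ^ k = ∑ j ∈ Finset.range (k + 1), (k.choose j : ℂ) • v ^ j := by
    intro k
    rw [add_comm, (Commute.one_right v).add_pow]
    refine Finset.sum_congr rfl fun j _ => ?_
    rw [one_pow, mul_one, Nat.cast_smul_eq_nsmul, nsmul_eq_mul, Nat.cast_comm]
  have h2 : ∀ k : ℕ, ∑ j ∈ Finset.range (k + 1), (k.choose j : ℂ) • v ^ j =
      ∑ j ∈ Finset.range r, (k.choose j : ℂ) • v ^ j := by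
    intro k
    have e1 : ∑ j ∈ Finset.range (k + 1), (k.choose j : ℂ) • v ^ j =
        ∑ j ∈ Finset.range (k + 1 + r), (k.choose j : ℂ) • v ^ j := by
      refine Finset.sum_subset (Finset.range_mono (by omega)) fun j _ hj => ?_
      rw [Finset.mem_range, not_lt] at hj
      rw [Nat.choose_eq_zero_of_lt (by omega), Nat.cast_zero, zero_smul]
    have e2 : ∑ j ∈ Finset.range r, (k.choose j : ℂ) • v ^ j =
        ∑ j ∈ Finset.range (k + 1 + r), (k.choose j : ℂ) • v ^ j := by
      refine Finset.sum_subset (Finset.range_mono (by omega)) fun j _ hj => ?_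
      rw [Finset.mem_range, not_lt] at hj
      rw [pow_eq_zero_of_le hj hr, smul_zero]
    rw [e1, e2]
  refine ⟨∑ j ∈ Finset.range r, ch j • (v ^ j).map C, fun k => ?_⟩
  rw [h1, h2]
  ext1 x y
  rw [Matrix.map_apply, Matrix.sum_apply, Matrix.sum_apply, map_sum]
  refine Finset.sum_congr rfl fun j _ => ?_
  rw [Matrix.smul_apply, Matrix.smul_apply, Matrix.map_apply, smul_eq_mul, smul_eq_mul, map_mul, coe_evalRingHom,
    hch, eval_C]

open Polynomial in
/-- the derivative at zero of an action -/
private lemma der_actF34 {κ : Type*} [Fintype κ] [DecidableEq κ] (A : κ → Matrix n n ℂ[X]) (t : (κ → n) → ℂ)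
    (h1 : ∀ k, (A k).map (evalRingHom 0) = 1) (i : κ → n) :
    (derivative (actF A (fun j => C (t j)) i)).eval 0 =
      dact (fun k => (A k).map fun p => (derivative p).eval 0) t i := by
  unfold actF dact
  rw [derivative_sum, eval_finsetSum, Finset.sum_apply]
  simp_rw [actF_upd]
  rw [Finset.sum_comm]
  refine Finset.sum_congr rfl fun j _ => ?_
  rw [derivative_mul, derivative_C, mul_zero, add_zero, eval_mul, eval_C, derivative_prod_finset, eval_finsetSum,
    Finset.sum_mul]
  refine Finset.sum_congr rfl fun k _ => ?_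
  rw [eval_mul, eval_prod, Matrix.map_apply, ← Finset.erase_eq]
  have h2 : ∀ l, (A l (i l) (j l)).eval 0 = (1 : Matrix n n ℂ) (i l) (j l) := by
    intro l
    rw [← h1 l]
    rfl
  simp_rw [h2]
  ring

private lemma slot_pow34 {a b : ℕ} {g g' : Matrix n n ℂ} {t : (Fin a ⊕ Fin b → n) → ℂ}
    (ht : actF (slot a b g g') t = t) (k : ℕ) : actF (slot a b (g ^ k) (g' ^ k)) t = t := by
  induction k with
  | zero =>
    conv_rhs => rw [← actF_one t]
    congr 1
    funext x
    rcases x with x | x
    · simp [slot]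
    · simp [slot]
  | succ k ih =>
    conv_rhs => rw [← ih, ← ht, actF_mul]
    congr 1
    funext x
    rcases x with x | x
    · simp [slot, pow_succ]
    · simp only [slot, Sum.elim_inr]
      rw [← transpose_mul, pow_succ']

open Polynomial in
/-- `g ^ N - 1` is nilpotent if `N` kills all eigenvalues -/
private lemma nil34 {g : Matrix n n ℂ} {N : ℕ}
    (h : ∀ l : ℂ, Module.End.HasEigenvalue (Matrix.toLin' g) l → l ^ N = 1) : IsNilpotent (g ^ N - 1) := by
  have hmon : (minpoly ℂ (Matrix.toLin' g)).Monic := minpoly.monic (Algebra.IsIntegral.isIntegral _)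
  have hdvd : minpoly ℂ (Matrix.toLin' g) ∣
      (X ^ N - 1 : ℂ[X]) ^ (Multiset.card (minpoly ℂ (Matrix.toLin' g)).roots) := by
    conv_lhs => rw [(IsAlgClosed.splits (minpoly ℂ (Matrix.toLin' g))).eq_prod_roots_of_monic hmon]
    have h1 := Multiset.prod_dvd_prod_of_dvd (S := (minpoly ℂ (Matrix.toLin' g)).roots)
      (fun l : ℂ => (X - C l : ℂ[X])) (fun _ => (X ^ N - 1 : ℂ[X])) (fun l hl => by
        have h2 : (minpoly ℂ (Matrix.toLin' g)).IsRoot l := (mem_roots hmon.ne_zero).1 hl
        have h3 := h l (Module.End.hasEigenvalue_of_isRoot h2)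
        rw [dvd_iff_isRoot, IsRoot.def, eval_sub, eval_pow, eval_X, h3, eval_one, sub_self])
    rw [Multiset.map_const', Multiset.prod_replicate] at h1
    exact h1
  rw [Matrix.minpoly_toLin'] at hdvd
  obtain ⟨q, hq⟩ := hdvd
  have h1 := congrArg (aeval g) hq
  rw [map_mul, minpoly.aeval, zero_mul, map_pow, map_sub, map_pow, aeval_X, map_one] at h1
  exact ⟨_, h1⟩

private lemma exists_N34 {g : Matrix n n ℂ}
    (h : ∀ l : ℂ, Module.End.HasEigenvalue (Matrix.toLin' g) l → ∃ N : ℕ, 0 < N ∧ l ^ N = 1) :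
    ∃ N : ℕ, 0 < N ∧ ∀ l : ℂ, Module.End.HasEigenvalue (Matrix.toLin' g) l → l ^ N = 1 := by
  choose! N hN0 hN using h
  have hfin : Set.Finite {l | Module.End.HasEigenvalue (Matrix.toLin' g) l} := Module.End.finite_hasEigenvalue _
  refine ⟨∏ l ∈ hfin.toFinset, N l, Finset.prod_pos fun l hl => hN0 l (hfin.mem_toFinset.1 hl), fun l hl => ?_⟩
  obtain ⟨c, hc⟩ := Finset.dvd_prod_of_mem N (hfin.mem_toFinset.2 hl)
  rw [hc, pow_mul, hN l hl, one_pow]

open Polynomial in
/-- MON-1b: all eigenvalues are roots of unity. -/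
theorem log_un {g : GL n ℂ} (h : ∀ l : ℂ, Module.End.HasEigenvalue (Matrix.toLin' (g : Matrix n n ℂ)) l →
      ∃ N : ℕ, 0 < N ∧ l ^ N = 1) (hg : ∀ N : ℕ, 0 < N → g ^ N ≠ 1) :
    ∃ X : Matrix n n ℂ, X ≠ 0 ∧ ∀ (a b : ℕ) (t : (Fin a ⊕ Fin b → n) → ℂ) (N : ℕ), 0 < N →
      actF (slot a b ((g ^ N : GL n ℂ) : Matrix n n ℂ) (((g ^ N)⁻¹ : GL n ℂ) : Matrix n n ℂ)) t = t →
      dL a b t X = 0 := by
  obtain ⟨M, hM, hMl⟩ := exists_N34 h
  -- the unipotent element and its inverse
  set u : Matrix n n ℂ := ((g ^ M : GL n ℂ) : Matrix n n ℂ) with hu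
  set u' : Matrix n n ℂ := (((g ^ M)⁻¹ : GL n ℂ) : Matrix n n ℂ) with hu'
  have huu : u * u' = 1 := Units.mul_inv _
  have huu' : u' * u = 1 := Units.inv_mul _
  have hnil : IsNilpotent (u - 1) := by
    have h1 := nil34 hMl
    rwa [← Units.val_pow_eq_pow_val] at h1
  have hnil' : IsNilpotent (u' - 1) := by
    have h1 : u' - 1 = -(u' * (u - 1)) := by rw [mul_sub, huu', mul_one]; abel
    have h2 : Commute u' (u - 1) := by
      have h3 : Commute u' u := by rw [Commute, SemiconjBy, huu, huu']
      exact h3.sub_right (Commute.one_right _)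
    rw [h1]
    exact (h2.isNilpotent_mul_left hnil).neg
  obtain ⟨U, hU⟩ := interp34 hnil
  obtain ⟨U', hU'⟩ := interp34 hnil'
  simp only [add_sub_cancel] at hU hU'
  let D : Matrix n n ℂ[X] → Matrix n n ℂ := fun A => A.map fun p => (derivative p).eval 0
  have hD : ∀ A B : Matrix n n ℂ[X], D (A * B) = D A * B.map (evalRingHom 0) + A.map (evalRingHom 0) * D B := by
    intro A B
    ext i j
    simp only [D, Matrix.map_apply, Matrix.mul_apply, Matrix.add_apply, derivative_sum, eval_finsetSum, derivative_mul,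
      eval_add, eval_mul, Finset.sum_add_distrib, coe_evalRingHom]
  have hU0 : U.map (evalRingHom 0) = 1 := by
    have := hU 0
    rwa [Nat.cast_zero, pow_zero] at this
  have hU0' : U'.map (evalRingHom 0) = 1 := by
    have := hU' 0
    rwa [Nat.cast_zero, pow_zero] at this
  have hinv : U * U' = 1 := by
    refine mat_ext34 fun k => ?_
    rw [Matrix.map_mul, hU, hU', Matrix.map_one _ (map_zero _) (map_one _)]
    have h3 : Commute u u' := by rw [Commute, SemiconjBy, huu, huu']
    rw [← h3.mul_pow, huu, one_pow]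
  have hX' : D U' = -D U := by
    have h1 := hD U U'
    rw [hinv, hU0, hU0', mul_one, one_mul] at h1
    have h2 : D (1 : Matrix n n ℂ[X]) = 0 := by
      ext i j
      simp only [D, Matrix.map_apply, Matrix.zero_apply, Matrix.one_apply]
      split_ifs <;> simp
    rw [h2] at h1
    exact (neg_eq_of_add_eq_zero_right h1.symm).symm
  refine ⟨D U, ?_, ?_⟩
  · intro hX
    -- the derivative vanishes identically
    have hcomp : ∀ k : ℕ, U.map (fun p => p.comp (Polynomial.X + C (k : ℂ))) = U * (u ^ k).map C := by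
      intro k
      refine mat_ext34 fun l => ?_
      have h1 : (U.map (fun p => p.comp (Polynomial.X + C (k : ℂ)))).map (evalRingHom (l : ℂ)) =
          U.map (evalRingHom (((l + k : ℕ) : ℂ))) := by
        ext i j
        simp only [Matrix.map_apply, coe_evalRingHom, eval_comp, eval_add, eval_X, eval_C]
        push_cast
        rfl
      have h2 : ((u ^ k).map C).map (evalRingHom (l : ℂ)) = u ^ k := by
        ext i j
        simp only [Matrix.map_apply, coe_evalRingHom, eval_C]
      rw [h1, Matrix.map_mul, h2, hU, hU, pow_add]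
    have hder : U.map derivative = 0 := by
      refine mat_ext34 fun k => ?_
      have h1 := congrArg D (hcomp k)
      rw [hD, hX, zero_mul, zero_add] at h1
      have h2 : D ((u ^ k).map C) = 0 := by
        ext i j
        simp only [D, Matrix.map_apply, derivative_C, eval_zero, Matrix.zero_apply]
      rw [h2, mul_zero] at h1
      ext i j
      have h3 := congrFun (congrFun h1 i) j
      simp only [D, Matrix.map_apply, derivative_comp, derivative_add, derivative_X, derivative_C, add_zero, one_mul,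
        eval_comp, eval_add, eval_X, eval_C, zero_add, Matrix.zero_apply] at h3
      simp only [Matrix.map_apply, coe_evalRingHom, Matrix.zero_apply, eval_zero]
      exact h3
    have hconst : U.map (evalRingHom ((1 : ℕ) : ℂ)) = U.map (evalRingHom ((0 : ℕ) : ℂ)) := by
      ext i j
      have h1 : derivative (U i j) = 0 := congrFun (congrFun hder i) j
      have h2 := Polynomial.eq_C_of_derivative_eq_zero h1
      simp only [Matrix.map_apply, coe_evalRingHom]
      rw [h2, eval_C, eval_C]
    rw [hU, hU, pow_one, pow_zero] at hconst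
    refine hg M hM (Units.ext ?_)
    rw [← hu, hconst, Units.val_one]
  · intro a b t N hN ht
    have hpow : ∀ k : ℕ, actF (slot a b (u ^ (N * k)) (u' ^ (N * k))) t = t := by
      intro k
      have h1 := slot_pow34 ht (M * k)
      have e1 : ((g ^ N : GL n ℂ) : Matrix n n ℂ) ^ (M * k) = u ^ (N * k) := by
        rw [hu, ← Units.val_pow_eq_pow_val, ← Units.val_pow_eq_pow_val, ← pow_mul, ← pow_mul]
        congr 2
        ring
      have e2 : (((g ^ N)⁻¹ : GL n ℂ) : Matrix n n ℂ) ^ (M * k) = u' ^ (N * k) := by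
        rw [hu', ← Units.val_pow_eq_pow_val, ← Units.val_pow_eq_pow_val, inv_pow, inv_pow, ← pow_mul, ← pow_mul]
        congr 3
        ring
      rwa [e1, e2] at h1
    have hF : ∀ i, actF (slot a b U U') (fun j => C (t j)) i = C (t i) := by
      intro i
      rw [← sub_eq_zero]
      refine poly_zero34 hN fun k => ?_
      rw [eval_sub, eval_C, sub_eq_zero]
      have h1 := actF_map (evalRingHom ((N * k : ℕ) : ℂ)) (slot a b U U') (fun j => C (t j)) i
      simp only [coe_evalRingHom, eval_C] at h1
      rw [← h1]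
      have h2 : (fun x => (slot a b U U' x).map (eval ((N * k : ℕ) : ℂ))) = slot a b (u ^ (N * k)) (u' ^ (N * k)) := by
        funext x
        rcases x with x | x
        · exact hU (N * k)
        · simp only [slot, Sum.elim_inr]
          rw [← hU' (N * k)]
          rfl
      rw [h2, hpow k]
    have hslot : ∀ x, (slot a b U U' x).map (evalRingHom 0) = 1 := by
      intro x
      rcases x with x | x
      · exact hU0
      · simp only [slot, Sum.elim_inr]
        rw [← Matrix.transpose_one, ← hU0']
        rfl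
    rw [dL_apply]
    funext i
    have h1 := der_actF34 (slot a b U U') t hslot i
    rw [hF i, derivative_C, eval_zero] at h1
    rw [Pi.zero_apply, h1]
    congr 2
    funext x
    rcases x with x | x
    · rfl
    · simp only [lslot, slot, Sum.elim_inr]
      rw [← Matrix.transpose_neg, ← hX']
      rfl

end MH
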